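import Pool.Agent.Helper42.RD.Goals2

/-!
# Project RD (MP_fc6b1e_nt), part F: several pairs `(Σ, χ₀)` at the same time

A pair `(P, T)` stands for a faithful character `χ₀` of `Gal(M/K)` (up to Frobenius) and a `p`-ordinary
CM type. One datum `(R, α)` is found whose Selmer groups are trivial for any given family of at most
`p` pairs.
-/

namespace Pool.Agent.Helper76.RD

open NumberField Polynomial Module IsDedekindDomain TensorProduct Pool.Agent.Helper51.SigLeo
open Pool.Agent.Helper51.RP Pool.Agent.Helper42.RD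

/-- The pair `(P, T)` is admissible: the hypotheses of `D_DSC` on `P` and `T`. -/
structure PairOK (p : ℕ) [Fact p.Prime] {k : Type} [NormedField k] [NormedAlgebra ℚ_[p] k]
    {K M : Type} [Field K] [NumberField K] [Field M] [Algebra K M] (m : ℕ) (δ : M ≃ₐ[K] M)
    (P : (ZMod p)[X]) (T : Set (K →+* k)) : Prop where
  phi : ∃ (ζ : k) (Φ : ℤ_[p][X]), PhiData p m ζ Φ P
  tor : TorOK P δ
  closed : PlaceClosed T
  card : finrank ℚ K = 2 * T.ncard

/-- **D_DSA** (descent, any uniformizer). If `SelD` contains an element which is not a `p`-th power, there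
is a prime `𝔮` as in `D_ORB` such that EVERY datum on `R ∪ {conjugates of 𝔮}` which extends `(R, α)` has
a strictly smaller Selmer group.

PROOF. The proof of `D_DSC` (`Pool/Agent/Helper74/RD/DSC.lean`) does not use how `α'` was chosen. -/
def D_DSA : Prop :=
  ∀ (p : ℕ) [Fact p.Prime] (k : Type) [NormedField k] [NormedAlgebra ℚ_[p] k]
    [IsUltrametricDist k] [CompleteSpace k], Nonempty (AlgebraicClosure ℚ →+* k) →
  ∀ (L : IwasawaLog p k) (K M : Type) [Field K] [NumberField K] [IsTotallyComplex K]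
    [Field M] [NumberField M] [Algebra K M] [IsGalois K M] (m : ℕ)
    (δ : M ≃ₐ[K] M) (ζ : k) (Φ : ℤ_[p][X]) (P : (ZMod p)[X]), PhiData p m ζ Φ P →
    orderOf δ = m → finrank K M = m → TorOK P δ →
  ∀ T : Set (K →+* k), PlaceClosed T → finrank ℚ K = 2 * T.ncard →
  ∀ (R : Set (HeightOneSpectrum (𝓞 M))) (al : HeightOneSpectrum (𝓞 M) → K), IsDat p R al →
    (∃ x : Mˣ, SelD L (above T) P δ R al x ∧ ¬ Pw p x) →
  ∃ 𝔮 : HeightOneSpectrum (𝓞 M), 𝔮 ∉ R ∧ FreeP K 𝔮 ∧ 𝔮.valuation M (p : M) = 1 ∧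
    p ∣ Ideal.absNorm 𝔮.asIdeal - 1 ∧
    ∀ al' : HeightOneSpectrum (𝓞 M) → K, IsDat p (R ∪ {w | ConjP K w 𝔮}) al' →
      (∀ w ∈ R, al' w = al w) →
      (∀ x : Mˣ, SelD L (above T) P δ (R ∪ {w | ConjP K w 𝔮}) al' x →
        SelD L (above T) P δ R al x) ∧
      ∃ x : Mˣ, SelD L (above T) P δ R al x ∧
        ¬ SelD L (above T) P δ (R ∪ {w | ConjP K w 𝔮}) al' x

/-- **D_ORP** (the `p` classes of uniformizers). For `𝔮` as in `D_ORB` there are data
`(R ∪ {conjugates of 𝔮}, α'_t)`, `t < p`, which extend `(R, α)`, such that the quotients of the `α'_t` at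
`𝔮` are not locally `p`-th powers.

PROOF (from `D_ORB`). Let `al'` be given by `D_ORB`, `π = al' 𝔮`. The residue degree of `𝔮` over
`q = 𝔮 ∩ 𝓞_K` is 1 (the order of the decomposition group of `𝔮` in `Gal(M/K)`, which is trivial, is `e f`),
so every class of the field `κ = 𝓞_M/𝔮` contains an element of `𝓞_K`. `κˣ` is cyclic of order
`N(𝔮) - 1`, divisible by `p` and positive; so there is `u ∈ 𝓞_K` whose class is not zero and not a `p`-th
power in `κˣ`. Let `al'_t w = π u^t` for `w` conjugate to `𝔮`, and `al'_t w = al w` for `w ∈ R`. `IsDat`: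
for `w` conjugate to `𝔮`, `ord_w(u) = ord_𝔮(u) = 0` (`u ∈ K`), so `ord_w(π u^t) = 1`; the other conditions are
those for `al'` (`ConjP` is an equivalence relation; no conjugate of `𝔮` is in `R`). Let `s, t < p`,
`s ≠ t`, and suppose that `LocPow p 𝔮 (π u^s (π u^t)^(p-1))`. The element is `u^(s + (p-1) t) π^p`, and
`r = s + (p-1) t ≡ s - t mod p` is prime to `p`. So `u^r z^p ≡ 1 mod 𝔮` with `z = π y`, which has
valuation 0 (`p ord(z) = -r ord(u) = 0`), so the class of `u^r` is a `p`-th power in `κˣ`, and so is the class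
of `u` (Bezout for `r` and `p`): a contradiction. -/
def D_ORP : Prop :=
  ∀ (p : ℕ) [Fact p.Prime] (K M : Type) [Field K] [NumberField K] [Field M] [NumberField M]
    [Algebra K M] [IsGalois K M] (R : Set (HeightOneSpectrum (𝓞 M)))
    (al : HeightOneSpectrum (𝓞 M) → K), IsDat p R al →
  ∀ 𝔮 : HeightOneSpectrum (𝓞 M), 𝔮 ∉ R → FreeP K 𝔮 → 𝔮.valuation M (p : M) = 1 →
    p ∣ Ideal.absNorm 𝔮.asIdeal - 1 →
  ∃ al' : ℕ → HeightOneSpectrum (𝓞 M) → K,
    (∀ t, IsDat p (R ∪ {w | ConjP K w 𝔮}) (al' t) ∧ ∀ w ∈ R, al' t w = al w) ∧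
    ∀ s t, s < p → t < p → s ≠ t →
      ¬ LocPow p 𝔮 (algebraMap K M (al' s 𝔮) * algebraMap K M (al' t 𝔮) ^ (p - 1))

/-- **D_PRO** (protection). Suppose that `SelD` of `(R, α)` is trivial for the pair `(P, T)`, and let
`(R', α₁)`, `(R', α₂)`, `R' = R ∪ {conjugates of 𝔮}`, be two data which extend `(R, α)`, both with
nontrivial Selmer group. Then `α₁ 𝔮/α₂ 𝔮` is locally a `p`-th power at `𝔮`.

PROOF (from `D_SLG`). Let `x₁`, `x₂` be elements of the two Selmer groups, not `p`-th powers. For `x ∈ Mˣ`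
let `n_x(X) = ∑_{j<m} ord_𝔮(δ^(-j) x) X^j` in `A = F_p[X]/(X^m - 1)` (indices modulo `m`, `δ^m = 1`). For
`c ∈ F_p[X]`, `c(δ) x = pol c δ x` has `n_{c(δ) x} = c n_x` (`ord_𝔮(δ^(-j) δ^l x) = ord_𝔮(δ^(-(j-l)) x)`).
(a) `P n_x = 0` in `A` for `x = x₁, x₂` since `P(δ) x` is a `p`-th power. Let `X^m - 1 = P Q`, with `P` and
`Q` coprime (`X^m - 1` is squarefree modulo `p`): `n_x` is represented by `Q a_x`.
(b) If `x` satisfies `P(δ) x ∈` `p`-th powers, `LocSig`, the conditions of the datum `(R, α)` at all `w` not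
conjugate to `𝔮`, and `n_x = 0`, then `x ∈ SelD` of `(R, α)`: for `w` conjugate to `𝔮`, `w ∉ R` and
`ord_w(x) = ord_𝔮(δ^i x)` for some `i` (`Gal(M/K) = ⟨δ⟩`), a multiple of `p`; so `x` is a `p`-th power. These
conditions (without `n_x = 0`) define a subgroup `G°` of `Mˣ`, stable under `δ`, which contains the
`p`-th powers: `G°` contains the two Selmer groups.
(c) So `n_{x₁} ≠ 0`: `P` does not divide `a_{x₁}`; `P` is irreducible, so there is `c ∈ F_p[X]` with
`c a_{x₁} ≡ a_{x₂} mod P`, hence `c n_{x₁} = n_{x₂}` in `A`. By (b) `x₂/(c(δ) x₁) = z^p`.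
(d) Replacing `x₂` by `δ^j x₂` (which is in the same Selmer group, not a `p`-th power) we may suppose
that `n = ord_𝔮(x₂)` is prime to `p` (`n_{x₂} ≠ 0`). For `x` in the first Selmer group
`LocPow p 𝔮 (x α₁^i)` for some `i`, with `i ≡ -ord_𝔮(x) mod p` (`α₁ = α₁ 𝔮` has valuation 1). Apply this to
the element `c(δ) x₁` of the first Selmer group (`D_SLG`), and multiply by `z^p`:
`LocPow p 𝔮 (x₂ α₁^i)` with `i ≡ -n`. In the same way `LocPow p 𝔮 (x₂ α₂^i')`, `i' ≡ -n mod p`, and we may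
take `i' = i` (change `i` and `i'` by multiples of `p`). The quotient: `LocPow p 𝔮 ((α₁/α₂)^i)`, `i` prime
to `p`, so `LocPow p 𝔮 (α₁/α₂)` (Bezout), and `α₁ α₂^(p-1) = (α₁/α₂) α₂^p`. -/
def D_PRO : Prop :=
  ∀ (p : ℕ) [Fact p.Prime] (k : Type) [NormedField k] [NormedAlgebra ℚ_[p] k]
    [IsUltrametricDist k] (L : IwasawaLog p k) (K M : Type) [Field K] [NumberField K]
    [Field M] [NumberField M] [Algebra K M] [IsGalois K M] (m : ℕ)
    (δ : M ≃ₐ[K] M) (ζ : k) (Φ : ℤ_[p][X]) (P : (ZMod p)[X]), PhiData p m ζ Φ P →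
    orderOf δ = m → finrank K M = m →
  ∀ (T : Set (K →+* k)) (R : Set (HeightOneSpectrum (𝓞 M))) (al : HeightOneSpectrum (𝓞 M) → K),
    IsDat p R al → (∀ x : Mˣ, SelD L (above T) P δ R al x → Pw p x) →
  ∀ 𝔮 : HeightOneSpectrum (𝓞 M), 𝔮 ∉ R → FreeP K 𝔮 →
  ∀ al₁ al₂ : HeightOneSpectrum (𝓞 M) → K, IsDat p (R ∪ {w | ConjP K w 𝔮}) al₁ →
    IsDat p (R ∪ {w | ConjP K w 𝔮}) al₂ → (∀ w ∈ R, al₁ w = al w) → (∀ w ∈ R, al₂ w = al w) →
    (∃ x : Mˣ, SelD L (above T) P δ (R ∪ {w | ConjP K w 𝔮}) al₁ x ∧ ¬ Pw p x) →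
    (∃ x : Mˣ, SelD L (above T) P δ (R ∪ {w | ConjP K w 𝔮}) al₂ x ∧ ¬ Pw p x) →
  LocPow p 𝔮 (algebraMap K M (al₁ 𝔮) * algebraMap K M (al₂ 𝔮) ^ (p - 1))

/-- **D_FIR** (finiteness, with a finite set `R`). A set of elements of `Mˣ` whose valuations are multiples
of `p` at all primes not in the finite set `R`, pairwise incongruent modulo `p`-th powers, has bounded
cardinality.

PROOF (from `D_FIN`). Let `n` be the bound of `D_FIN`. Divide the given set into the `p^|R|` classes
according to the valuations modulo `p` at the primes of `R`. If `F'` is one of the classes and `y₀ ∈ F'`, the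
elements `x/y₀`, `x ∈ F'`, satisfy the hypotheses of `D_FIN`; so `|F'| ≤ n`. -/
def D_FIR : Prop :=
  ∀ (p : ℕ) [Fact p.Prime] (M : Type) [Field M] [NumberField M]
    (R : Set (HeightOneSpectrum (𝓞 M))), R.Finite → ∃ n : ℕ, ∀ F : Finset Mˣ,
    (∀ x ∈ F, ∀ w : HeightOneSpectrum (𝓞 M), w ∉ R → (p : ℤ) ∣ ordv w (x : M)) →
    (∀ x ∈ F, ∀ y ∈ F, x ≠ y → ¬ Pw p (x / y)) → F.card ≤ n

/-- **D_DSQ** (descent with protected pairs). Let `(Q j, U j)`, `j < n`, be `n < p` admissible pairs with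
trivial Selmer groups for the datum `(R, α)`. If the Selmer group of the pair `(P, T)` is not trivial, there
is a datum for which it is strictly smaller and the Selmer groups of the protected pairs are still
trivial.

PROOF (from `D_DSA`, `D_ORP`, `D_PRO`). Let `𝔮` be given by `D_DSA` and `al' t`, `t < p`, by `D_ORP`. For every
`j` at most one `t < p` is such that the Selmer group of the pair `(Q j, U j)` for `al' t` contains an
element which is not a `p`-th power (`D_PRO` and the last property of `D_ORP`). As `n < p` there is `t < p`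
which is good for all `j`. Take `al' t`; `D_DSA` gives the other properties. -/
def D_DSQ : Prop :=
  ∀ (p : ℕ) [Fact p.Prime] (k : Type) [NormedField k] [NormedAlgebra ℚ_[p] k]
    [IsUltrametricDist k] [CompleteSpace k], Nonempty (AlgebraicClosure ℚ →+* k) →
  ∀ (L : IwasawaLog p k) (K M : Type) [Field K] [NumberField K] [IsTotallyComplex K]
    [Field M] [NumberField M] [Algebra K M] [IsGalois K M] (m : ℕ) (δ : M ≃ₐ[K] M),
    orderOf δ = m → finrank K M = m →
  ∀ (n : ℕ) (Q : Fin n → (ZMod p)[X]) (U : Fin n → Set (K →+* k)), n < p →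
    (∀ j, PairOK p m δ (Q j) (U j)) →
  ∀ (P : (ZMod p)[X]) (T : Set (K →+* k)), PairOK p m δ P T →
  ∀ (R : Set (HeightOneSpectrum (𝓞 M))) (al : HeightOneSpectrum (𝓞 M) → K), IsDat p R al →
    (∀ (j : Fin n) (x : Mˣ), SelD L (above (U j)) (Q j) δ R al x → Pw p x) →
    (∃ x : Mˣ, SelD L (above T) P δ R al x ∧ ¬ Pw p x) →
  ∃ (R' : Set (HeightOneSpectrum (𝓞 M))) (al' : HeightOneSpectrum (𝓞 M) → K), IsDat p R' al' ∧
    (∀ (j : Fin n) (x : Mˣ), SelD L (above (U j)) (Q j) δ R' al' x → Pw p x) ∧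
    (∀ x : Mˣ, SelD L (above T) P δ R' al' x → SelD L (above T) P δ R al x) ∧
    ∃ x : Mˣ, SelD L (above T) P δ R al x ∧ ¬ SelD L (above T) P δ R' al' x

/-- **D_COQ** (one datum for at most `p` pairs).

PROOF (from `D_DSQ`, `D_FIR`, `D_SLG`). Induction on `n`. `n = 0`: `R = ∅`, any `al` (constant `0`). From `n`
to `n + 1 ≤ p`: let `(R₀, α₀)` be a datum with trivial Selmer groups for the first `n < p` pairs. The Selmer
group of the last pair for `(R₀, α₀)` is finite modulo `p`-th powers, by `D_FIR`. As long as it is not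
trivial, `D_DSQ` (the first `n` pairs are protected) replaces the datum by one for which the first `n` Selmer
groups are still trivial and that of the last pair is strictly smaller; these are subgroups containing
the `p`-th powers (`D_SLG`), all contained in the first one, so the finite number of classes modulo `p`-th
powers decreases strictly. -/
def D_COQ : Prop :=
  ∀ (p : ℕ) [Fact p.Prime] (k : Type) [NormedField k] [NormedAlgebra ℚ_[p] k]
    [IsUltrametricDist k] [CompleteSpace k], Nonempty (AlgebraicClosure ℚ →+* k) →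
  ∀ (L : IwasawaLog p k) (K M : Type) [Field K] [NumberField K] [IsTotallyComplex K]
    [Field M] [NumberField M] [Algebra K M] [IsGalois K M] (m : ℕ) (δ : M ≃ₐ[K] M),
    orderOf δ = m → finrank K M = m →
  ∀ (n : ℕ) (Q : Fin n → (ZMod p)[X]) (U : Fin n → Set (K →+* k)), n ≤ p →
    (∀ j, PairOK p m δ (Q j) (U j)) →
  ∃ (R : Set (HeightOneSpectrum (𝓞 M))) (al : HeightOneSpectrum (𝓞 M) → K), IsDat p R al ∧
    ∀ (j : Fin n) (x : Mˣ), SelD L (above (U j)) (Q j) δ R al x → Pw p x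

/-- **E_FRB** (Frobenius). `ζ` and `ζ^p` have the same `Φ` and `P`.

PROOF. Only `prim` (`p` is prime to `m`) and `root` (`Φ(ζ^p) = 0`) depend on `ζ`. Let `X^m - 1 = Φ Ψ`, in
`ℤ_p[X]`. `Φ(ζ^p) Ψ(ζ^p) = ζ^(pm) - 1 = 0`. Suppose `Ψ(ζ^p) = 0`. Let `A = ℤ_p[ζ] ⊆ k` (the image of
`ℤ_p[X]`), `𝔪` a maximal ideal of `A`; `A` is a finite `ℤ_p`-module, so `p ∈ 𝔪`
(`𝔪 ∩ ℤ_p` is maximal, integral extension). In the field `κ = A/𝔪` of characteristic `p`, with `ζ'` the image
of `ζ`: `P(ζ') = 0` so `P(ζ'^p) = P(ζ')^p = 0` (the coefficients of `P` are in `F_p`), and `Ψ̄(ζ'^p) = 0`. But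
`P` and `Ψ̄` are coprime, since `P Ψ̄ = X^m - 1` is squarefree modulo `p` (`p ∤ m`): a contradiction. -/
def E_FRB : Prop :=
  ∀ (p : ℕ) [Fact p.Prime] (k : Type) [NormedField k] [NormedAlgebra ℚ_[p] k] (m : ℕ) (ζ : k)
    (Φ : ℤ_[p][X]) (P : (ZMod p)[X]), PhiData p m ζ Φ P → PhiData p m (ζ ^ p) Φ P

/-- **E_INM** (infinitely many `N` for one datum, good for all the pairs with trivial Selmer group).

PROOF (from `E_TOW`, `E_TOR`, `E_EXA`, `E_KUM`, `E_GOO`). It is the proof of `E_RSP` after the choice of the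
datum. Let `Ω = AlgebraicClosure K`. `M₁ = M(ε)`, `K₁ = K(ε)` with the inclusions; `Tower` holds
(`[M₁ : K₁] > 1` since `M` is not contained in `K₁`), `E_TOW` gives the degrees. Suppose that the set is
contained in a finite set `𝒩` of Galois extensions of degree `p`; `s_N`, `a_N`, `Z` as in `E_RSP`. Let `a`, `W` be
given by `E_EXA`, `N` by `E_KUM`, `s^p = a`, `s ∉ M₁`. By `E_GOO`, `N` is in the set for ALL `S`, `χ₀`, `δ`, `Φ`, `P`
as stated, so `N ∈ 𝒩`; contradiction as in `E_RSP`. -/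
def E_INM : Prop :=
  ∀ (p : ℕ) [Fact p.Prime] (K : Type) [Field K] [NumberField K] [IsTotallyComplex K]
    (ιinf : AlgebraicClosure K →+* ℂ) (ιp : AlgebraicClosure K →+* ℂ_[p]) (L : IwasawaLog p ℂ_[p])
    (M : IntermediateField K (AlgebraicClosure K)) [NumberField M] [IsGalois K M],
    (finrank K M).Coprime p →
    (∀ ξ : AlgebraicClosure K, IsPrimitiveRoot ξ p → ¬ M ≤ IntermediateField.adjoin K {ξ}) →
  ∀ (R : Set (HeightOneSpectrum (𝓞 M))) (al : HeightOneSpectrum (𝓞 M) → K), IsDat p R al →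
  {N : IntermediateField K (AlgebraicClosure K) | finrank K N = p ∧ IsGalois K N ∧
    ∀ (S : Set (K →+* ℂ)), PlaceClosed (TSet ιinf ιp S) →
    ∀ (χ₀ : (M ≃ₐ[K] M) →* ℂ_[p]ˣ), Function.Injective χ₀ →
    ∀ (δ : M ≃ₐ[K] M) (Φ : ℤ_[p][X]) (P : (ZMod p)[X]), orderOf δ = finrank K M →
    PhiData p (finrank K M) ((χ₀ δ : ℂ_[p]ˣ) : ℂ_[p]) Φ P →
    (∀ x : (M)ˣ, SelD L (above (TSet ιinf ιp S)) P δ R al x → Pw p x) →
    TwistGood p ιinf ιp L S M χ₀ N}.Infinite

/-- The CM type `S` is `p`-ordinary: a union of classes of embeddings which induce the same `p`-adic place. -/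
def Ordy {p : ℕ} [Fact p.Prime] {K : Type} [Field K] (ιinf : AlgebraicClosure K →+* ℂ)
    (ιp : AlgebraicClosure K →+* ℂ_[p]) (S : Set (K →+* ℂ)) : Prop :=
  ∀ σ τ : K →+* AlgebraicClosure K, (∀ x, ‖ιp (σ x)‖ = ‖ιp (τ x)‖) →
    (ιinf.comp σ ∈ S ↔ ιinf.comp τ ∈ S)

/-- **E_RSQ** (the theorem for families). Let `K` be a number field, `M/K` a Galois extension of degree prime to
`p`, not contained in `K(μ_p)`, and `(S i, χ₀ i)`, `i ∈ ι`, a family of pairs of a `p`-ordinary CM type of `K`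
and a faithful character of `Gal(M/K)`, which fall into at most `p` classes (`c : ι → Fin p`), where
two pairs in the same class have the same type, and characters which are conjugate by a power of Frobenius.
There are infinitely many cyclic extensions `N/K` of degree `p` such that the `Σ`-Leopoldt statement
holds for ALL the pairs of the family and all the characters `χ₀ φ`, `φ` of order `p` of `Gal(N/K)`.

PROOF (from `RP.S_PHI`, `D_COQ`, `E_TOR`, `E_FRB`, `E_INM`). `K` is totally complex and for every `i` the set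
`T i = TSet ιinf ιp (S i)` is place closed with `2 |T i| = [K : ℚ]`: see `E_RSP`. `Gal(M/K)` is cyclic; let `δ` be a
generator, `m = [M : K] > 1`. For every `t ∈ Fin p` choose `r t ∈ ι` with `c (r t) = t` if there is one, and
any element of `ι` otherwise; let `Φ t`, `P t` be given by `RP.S_PHI` for `ζ = χ₀ (r t) δ`, a primitive `m`-th
root of unity; `TorOK (P t) δ` by `E_TOR` (as in `E_RSP`). `D_COQ` with `n = p` and the pairs
`(P t, T (r t))` gives a datum `(R, α)`. Let `N` be in the infinite set given by `E_INM`, and `i ∈ ι`,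
`t = c i`, `j = r t`, so `c j = c i`: `S i = S j` and `χ₀ i δ = (χ₀ j δ)^(p^r)`. By `E_FRB`, `r` times,
`PhiData p m (χ₀ i δ) (Φ t) (P t)`. The Selmer group of `(P t, T i)`, `T i = T j`, is trivial. So
`TwistGood p ιinf ιp L (S i) M (χ₀ i) N`. -/
def E_RSQ : Prop :=
  ∀ (p : ℕ) [Fact p.Prime] (K : Type) [Field K] [NumberField K] (ιinf : AlgebraicClosure K →+* ℂ)
    (ιp : AlgebraicClosure K →+* ℂ_[p]) (L : IwasawaLog p ℂ_[p])
    (M : IntermediateField K (AlgebraicClosure K)) [FiniteDimensional K M] [IsGalois K M],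
    (finrank K M).Coprime p →
    (∀ ξ : AlgebraicClosure K, IsPrimitiveRoot ξ p → ¬ M ≤ IntermediateField.adjoin K {ξ}) →
  ∀ (ι : Type) [Nonempty ι] (S : ι → Set (K →+* ℂ)) (χ₀ : ι → ((M ≃ₐ[K] M) →* ℂ_[p]ˣ))
    (c : ι → Fin p), (∀ i, IsCMType (S i)) → (∀ i, Ordy ιinf ιp (S i)) →
    (∀ i, Function.Injective (χ₀ i)) →
    (∀ i j, c i = c j → S i = S j ∧ ∃ r : ℕ, ∀ g, χ₀ i g = χ₀ j g ^ p ^ r) →
  {N : IntermediateField K (AlgebraicClosure K) | finrank K N = p ∧ IsGalois K N ∧
    ∀ i, TwistGood p ιinf ιp L (S i) M (χ₀ i) N}.Infinite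

/-- **E_ALL** (all `p`-ordinary types and all faithful characters at the same time, for large `p`). Let
`[K : ℚ] = 2 d` and `p ≥ 2^d [M : K]`. There are infinitely many cyclic extensions `N/K` of degree `p` such that
the `Σ`-Leopoldt statement holds for ALL `p`-ordinary CM types `S` of `K` and ALL the characters `χ₀ φ` with
`χ₀` a faithful character of `Gal(M/K)` and `φ` a character of order `p` of `Gal(N/K)`.

PROOF (from `E_RSQ`). Let `ι` be the set of the pairs `(S, χ₀)`, `S` a `p`-ordinary CM type and `χ₀` a faithful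
character. Suppose that it is not empty. There are at most `2^d` CM types: complex conjugation is an
involution without fixed points on the `2 d` embeddings `K → ℂ` (if there is a CM type), and `S` is determined
by its intersection with a set of representatives. `Gal(M/K)` embeds in `ℂ_pˣ`, so it is cyclic, and a
homomorphism to `ℂ_pˣ` is determined by the image of a generator, an `m`-th root of unity, `m = [M : K]`:
at most `m` of them. So `|ι| ≤ 2^d m ≤ p` and there is an injective map `c : ι → Fin p`; apply `E_RSQ`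
(`r = 0`). If `ι` is empty, then there is nothing to prove about the pairs; this case is excluded by the
hypothesis that there is one pair. -/
def E_ALL : Prop :=
  ∀ (p : ℕ) [Fact p.Prime] (K : Type) [Field K] [NumberField K] (ιinf : AlgebraicClosure K →+* ℂ)
    (ιp : AlgebraicClosure K →+* ℂ_[p]) (L : IwasawaLog p ℂ_[p])
    (M : IntermediateField K (AlgebraicClosure K)) [FiniteDimensional K M] [IsGalois K M],
    (finrank K M).Coprime p →
    (∀ ξ : AlgebraicClosure K, IsPrimitiveRoot ξ p → ¬ M ≤ IntermediateField.adjoin K {ξ}) →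
  ∀ d : ℕ, finrank ℚ K = 2 * d → 2 ^ d * finrank K M ≤ p →
    (∃ (S : Set (K →+* ℂ)) (χ₀ : (M ≃ₐ[K] M) →* ℂ_[p]ˣ), IsCMType S ∧ Ordy ιinf ιp S ∧
      Function.Injective χ₀) →
  {N : IntermediateField K (AlgebraicClosure K) | finrank K N = p ∧ IsGalois K N ∧
    ∀ (S : Set (K →+* ℂ)) (χ₀ : (M ≃ₐ[K] M) →* ℂ_[p]ˣ), IsCMType S → Ordy ιinf ιp S →
      Function.Injective χ₀ → TwistGood p ιinf ιp L S M χ₀ N}.Infinite

end Pool.Agent.Helper76.RD
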