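import Pool.Agent.Helper76.RD.Goals3
import Pool.Agent.Helper74.RD.DSC

/-!
# Project RD (MP_fc6b1e_nt): the descent `D_DSA` with an arbitrary uniformizer (after helper74)
-/

namespace Pool.Agent.Helper76.RD

open NumberField Polynomial Module IsDedekindDomain Pool.Agent.Helper51.SigLeo
open Pool.Agent.Helper51.RP Pool.Agent.Helper42.RD
open Pool.Agent.Helper74.RD

/-- The descent. -/
theorem d_dsa (h1 : S_SEX) (h2 : S_DUAL) (h3 : S_STP) (h4 : Pool.Agent.Helper38.RSP.SP_QEX)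
    (h5 : D_VAL) (h6 : D_SLG) : D_DSA := by
  classical
  intro p hpf k _ _ _ _ hne L K M _ _ _ _ _ _ _ m δ ζ Φ P hPhi hord hfin hTor T hT hTc R al hD hx
  have hMc : IsTotallyComplex M := isTotallyComplex_of_algebra K M
  have hp0 : p ≠ 0 := hpf.out.ne_zero
  obtain ⟨x₀, hx₀, hx₀p⟩ := hx
  -- the set S
  have hpK : (p : 𝓞 K) ≠ 0 := by exact_mod_cast hp0
  have hcast : algebraMap K M (((p : 𝓞 K) : K)) = (p : M) := by
    have h : ((p : 𝓞 K) : K) = (p : K) := by simp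
    rw [h]; simp
  have hfinp : {w : HeightOneSpectrum (𝓞 M) | w.valuation M (p : M) < 1}.Finite := by
    have h := Pool.Agent.Helper60.RS.finite_dvd (K := K) (M := M) (p : 𝓞 K) hpK
    rwa [hcast] at h
  obtain ⟨S, hSf, hZS, hSst, hSpr⟩ := h1 K M
    (R ∪ {w : HeightOneSpectrum (𝓞 M) | w.valuation M (p : M) < 1}) (hD.fin.union hfinp)
  have hRS : R ⊆ S := fun w hw ↦ hZS (Or.inl hw)
  have hpS : ∀ w : HeightOneSpectrum (𝓞 M), w.valuation M (p : M) < 1 → w ∈ S :=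
    fun w hw ↦ hZS (Or.inr hw)
  obtain ⟨𝔪₀, v, hv, hvD⟩ := h5 p k K M δ T R al hD S hSf hSst hpS hRS
  -- the character
  obtain ⟨𝔪, ψ, hψ, hψS, hψ1, hψ2⟩ := h2 p k hne L K M m δ ζ Φ P hPhi hord hfin hTor T hT hTc S
    𝔪₀ v hv hSpr ⟨x₀, hx₀.pol, ⟨fun w hw ↦ (hvD x₀ w hw).mpr (hx₀.loc w), hx₀.sig⟩,
      fun w hw ↦ (hx₀.loc w).1 fun hR ↦ hw (hRS hR), hx₀p⟩
  -- the group of the datum
  obtain ⟨G, hG, hGp, hGδ⟩ := h6 p k L K M δ P T R al hD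
  have hx₀δ : p = 2 → ¬ Pw 2 (x₀ * Units.map ((δ : M →+* M) : M →* M) x₀) := by
    intro hp2 hcon
    exact hx₀p (pw_two P (hPhi.cop 1 one_pos hPhi.one_lt (one_dvd m)) δ x₀ hp2 hx₀.pol hcon)
  -- the prime q
  obtain ⟨𝔮, h𝔮S, h𝔮F, -, h𝔮ψ, h𝔮N, h𝔮p, h𝔮x⟩ := h4 p K M 𝔪 ψ hψ δ x₀ hx₀p hx₀δ S hSf
  have h𝔮R : 𝔮 ∉ R := fun h ↦ h𝔮S (hRS h)
  -- the element x₁
  obtain ⟨x₁, hx₁, hx₁q⟩ : ∃ x₁ : Mˣ, SelD L (above T) P δ R al x₁ ∧
      ¬ LocPow p 𝔮 (x₁ : M) := by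
    rcases h𝔮x with h | h
    · exact ⟨x₀, hx₀, h⟩
    · exact ⟨Units.map ((δ : M →+* M) : M →* M) x₀, (hG _).mp (hGδ _ ((hG _).mpr hx₀)), h⟩
  have hSc : ∀ w ∈ S, ¬ ConjP K w 𝔮 := fun w hw hc ↦ h𝔮S (hSst w hw 𝔮 (conj_symm hc))
  refine ⟨𝔮, h𝔮R, h𝔮F, h𝔮p, h𝔮N, fun al' hD' hal' ↦ ⟨?_, x₁, hx₁, ?_⟩⟩
  · intro x hx
    obtain ⟨G', hG', hGp', hGδ'⟩ := h6 p k L K M δ P T (R ∪ {w | ConjP K w 𝔮}) al' hD'
    have hGi : ∀ i : ℕ,
        Units.map (((δ ^ i : M ≃ₐ[K] M) : M →+* M) : M →* M) x ∈ G' := by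
      intro i
      induction i with
      | zero =>
          have h : Units.map (((δ ^ 0 : M ≃ₐ[K] M) : M →+* M) : M →* M) x = x := by
            ext
            simp
          rw [h]
          exact (hG' x).mpr hx
      | succ i ih =>
          have h : Units.map (((δ ^ (i + 1) : M ≃ₐ[K] M) : M →+* M) : M →* M) x =
              Units.map ((δ : M →+* M) : M →* M)
                (Units.map (((δ ^ i : M ≃ₐ[K] M) : M →+* M) : M →* M) x) := by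
            ext
            simp [pow_succ']
          rw [h]
          exact hGδ' _ ih
    -- the conditions at the primes of R
    have hRloc : ∀ x' : Mˣ, SelD L (above T) P δ (R ∪ {w | ConjP K w 𝔮}) al' x' → ∀ w ∈ R,
        ∃ i : ℕ, LocPow p w ((x' : M) * (algebraMap K M (al w)) ^ i) := by
      intro x' hx' w hw
      have h := (hx'.loc w).2 (Or.inl hw)
      rwa [hal' w hw] at h
    have hRout : ∀ x' : Mˣ, SelD L (above T) P δ (R ∪ {w | ConjP K w 𝔮}) al' x' → ∀ w,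
        w ∉ R → ¬ ConjP K w 𝔮 → (p : ℤ) ∣ ordv w (x' : M) := by
      intro x' hx' w hw hc
      refine (hx'.loc w).1 ?_
      rintro (h | h)
      · exact hw h
      · exact hc h
    -- the hypotheses of the duality
    have hdual : ∀ x' : Mˣ, SelD L (above T) P δ (R ∪ {w | ConjP K w 𝔮}) al' x' →
        ∑ j ∈ Finset.range m,
          (ordv 𝔮 (((δ ^ j)⁻¹ : M ≃ₐ[K] M) (x' : M)) : ZMod p) * ψ (cj δ j 𝔮.asIdeal) = 0 := by
      intro x' hx'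
      refine hψ2 𝔮 h𝔮S h𝔮F x' ⟨fun w hw ↦ ?_, hx'.sig⟩ ?_
      · rw [hvD x' w hw]
        exact ⟨fun hwR ↦ hRout x' hx' w hwR (hSc w hw), fun hwR ↦ hRloc x' hx' w hwR⟩
      · intro w hwS hwc
        exact hRout x' hx' w (fun h ↦ hwS (hRS h)) hwc
    have hδm : δ ^ m = 1 := by rw [← hord]; exact pow_orderOf_eq_one δ
    have hd : ∀ i : ℕ, ∑ j ∈ Finset.range m,
        (ordv 𝔮 (((δ ^ j)⁻¹ : M ≃ₐ[K] M) ((δ ^ i : M ≃ₐ[K] M) (x : M))) : ZMod p) *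
          ψ (cj δ j 𝔮.asIdeal) = 0 := by
      intro i
      have h := hdual (Units.map (((δ ^ i : M ≃ₐ[K] M) : M →+* M) : M →* M) x)
        ((hG' _).mp (hGi i))
      have hc : ((Units.map (((δ ^ i : M ≃ₐ[K] M) : M →+* M) : M →* M) x : Mˣ) : M) =
          (δ ^ i : M ≃ₐ[K] M) (x : M) := rfl
      rw [hc] at h
      exact h
    have hstp := h3 p K M m δ P hPhi.copm hδm hPhi.irr hPhi.dvdP 𝔮 ψ (hψ1 𝔮 h𝔮S) h𝔮ψ x hx.pol hd
    refine ⟨hx.pol, fun w ↦ ⟨fun hwR ↦ ?_, fun hwR ↦ hRloc x hx w hwR⟩, hx.sig⟩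
    by_cases hwc : ConjP K w 𝔮
    · obtain ⟨g, hg⟩ := hwc
      have hmpos : 0 < m := lt_trans one_pos hPhi.one_lt
      obtain ⟨i, hi⟩ := Pool.Agent.Helper60.RS.zpow_or δ hord hfin hmpos g⁻¹
      have h8 : ordv 𝔮 (g⁻¹ (x : M)) = ordv w (x : M) :=
        Pool.Agent.Helper60.RS.ordv_conj g hg (x : M)
      rw [hi] at h8
      rw [← h8]
      exact hstp i
    · exact hRout x hx w hwR hwc
  · intro hcon
    have hd1 : (p : ℤ) ∣ ordv 𝔮 (x₁ : M) := (hx₁.loc 𝔮).1 h𝔮R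
    have h𝔮R' : 𝔮 ∈ R ∪ {w | ConjP K w 𝔮} := Or.inr (conj_refl 𝔮)
    obtain ⟨i, hi⟩ := (hcon.loc 𝔮).2 h𝔮R'
    have hun : ordv 𝔮 (algebraMap K M (al' 𝔮)) = 1 := hD'.unif 𝔮 h𝔮R'
    have hal0 : algebraMap K M (al' 𝔮) ≠ 0 := by
      intro h0
      rw [h0] at hun
      unfold ordv at hun
      simp at hun
    obtain ⟨-, hd2⟩ := dvd_of_locPow 𝔮 hp0 hi
    rw [ordv_mul 𝔮 (Units.ne_zero x₁) (pow_ne_zero _ hal0), ordv_pow 𝔮 hal0, hun, mul_one,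
      dvd_add_right hd1] at hd2
    obtain ⟨t, ht⟩ := Int.natCast_dvd_natCast.mp hd2
    rw [ht, mul_comm p t, pow_mul] at hi
    exact hx₁q (locPow_mul_pow 𝔮 hi)

end Pool.Agent.Helper76.RD
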