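import Pool.Agent.Helper76.RD.Goals3
import Pool.Agent.Helper88.RD.SLG
import Pool.Agent.Helper31.RP.STP
import Pool.Agent.Helper74.RD.DSC

/-!
# Project RD (MP_fc6b1e_nt): protection `D_PRO`
-/

namespace Pool.Agent.Helper76.RD

open NumberField Polynomial Module IsDedekindDomain Pool.Agent.Helper51.SigLeo
open Pool.Agent.Helper51.RP Pool.Agent.Helper42.RD
open Pool.Agent.Helper31.RP (sh aeval_sh sh_m dl pl pl_dl dvd_of_dl pol_apply)

section alg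

variable {F : Type} [Field F] {m : ℕ} [NeZero m]

/-- The functions killed by `P` form a one dimensional space over `F[X]/P`. -/
theorem gen (P : F[X]) (hmF : (m : F) ≠ 0) (hP : Irreducible P) (hd : P ∣ X ^ m - 1)
    (n₁ n₂ : ZMod m → F) (h1 : (aeval (sh F m) P) n₁ = 0) (h2 : (aeval (sh F m) P) n₂ = 0)
    (hn : n₁ ≠ 0) : ∃ c : F[X], (aeval (sh F m) c) n₁ = n₂ := by
  obtain ⟨Q, hQ⟩ := hd
  have hdv : ∀ n : ZMod m → F, (aeval (sh F m) P) n = 0 → Q ∣ pl n := by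
    intro n hn
    have h7 : (aeval (sh F m) (P * pl n)) (dl F m) = 0 := by
      rw [map_mul]
      show (aeval (sh F m) P) ((aeval (sh F m) (pl n)) (dl F m)) = 0
      rw [pl_dl, hn]
    have := dvd_of_dl _ h7
    rw [hQ] at this
    exact (mul_dvd_mul_iff_left hP.ne_zero).1 this
  obtain ⟨a₁, ha₁⟩ := hdv n₁ h1
  obtain ⟨a₂, ha₂⟩ := hdv n₂ h2
  have hX : ∀ B : F[X], (aeval (sh F m) ((X ^ m - 1) * B)) (dl F m) = 0 := by
    intro B
    rw [map_mul]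
    simp [sh_m]
  have hnd : ¬ P ∣ a₁ := by
    rintro ⟨b, hb⟩
    apply hn
    rw [← pl_dl n₁, ha₁, hb]
    have : Q * (P * b) = (X ^ m - 1) * b := by rw [hQ]; ring
    rw [this]
    exact hX b
  have hco : IsCoprime P a₁ := by
    rcases EuclideanDomain.dvd_or_coprime P a₁ hP with h | h
    · exact absurd h hnd
    · exact h
  obtain ⟨s, t, hst⟩ := hco
  refine ⟨t * a₂, ?_⟩
  have e : (t * a₂) * pl n₁ = pl n₂ - (X ^ m - 1) * (s * a₂) := by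
    rw [ha₁, ha₂, hQ]
    linear_combination (Q * a₂) * hst
  calc (aeval (sh F m) (t * a₂)) n₁
      = (aeval (sh F m) (t * a₂)) ((aeval (sh F m) (pl n₁)) (dl F m)) := by rw [pl_dl]
    _ = (aeval (sh F m) ((t * a₂) * pl n₁)) (dl F m) := by rw [map_mul _ (t * a₂)]; rfl
    _ = (aeval (sh F m) (pl n₂)) (dl F m) -
          (aeval (sh F m) ((X ^ m - 1) * (s * a₂))) (dl F m) := by rw [e, map_sub]; rfl
    _ = n₂ := by rw [pl_dl, hX, sub_zero]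

end alg

section locp

variable {p : ℕ} {M : Type} [Field M] [NumberField M] {v : HeightOneSpectrum (𝓞 M)}

theorem locPow_npow {x : M} (hx : LocPow p v x) (r : ℕ) : LocPow p v (x ^ r) := by
  induction r with
  | zero =>
    rw [pow_zero]
    exact ⟨1, by rw [one_pow, mul_one, sub_self, map_zero]; exact zero_lt_one⟩
  | succ r ih =>
    rw [pow_succ]
    exact Pool.Agent.Helper88.RD.locPow_mul ih hx

/-- The comparison of two uniformizers. -/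
theorem compare (hp : p.Prime) {x a b : M} (ha0 : a ≠ 0) (hb0 : b ≠ 0)
    (ha : ordv v a = 1) (hb : ordv v b = 1) (hx0 : x ≠ 0) (hx : ¬ (p : ℤ) ∣ ordv v x)
    (h1 : ∃ i : ℕ, LocPow p v (x * a ^ i)) (h2 : ∃ i : ℕ, LocPow p v (x * b ^ i)) :
    LocPow p v (a * b ^ (p - 1)) := by
  obtain ⟨i, hi⟩ := h1
  obtain ⟨j, hj⟩ := h2
  have hp0 : p ≠ 0 := hp.ne_zero
  have di : (p : ℤ) ∣ ordv v x + i := by
    have h := (Pool.Agent.Helper74.RD.dvd_of_locPow v hp0 hi).2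
    rwa [Pool.Agent.Helper74.RD.ordv_mul v hx0 (pow_ne_zero _ ha0),
      Pool.Agent.Helper74.RD.ordv_pow v ha0, ha, mul_one] at h
  have dj : (p : ℤ) ∣ ordv v x + j := by
    have h := (Pool.Agent.Helper74.RD.dvd_of_locPow v hp0 hj).2
    rwa [Pool.Agent.Helper74.RD.ordv_mul v hx0 (pow_ne_zero _ hb0),
      Pool.Agent.Helper74.RD.ordv_pow v hb0, hb, mul_one] at h
  have hic : Nat.Coprime i p := by
    rw [Nat.coprime_comm, Nat.Prime.coprime_iff_not_dvd hp]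
    intro h
    apply hx
    have h' : (p : ℤ) ∣ (i : ℤ) := Int.natCast_dvd_natCast.2 h
    have := dvd_sub di h'
    simpa using this
  -- an inverse of `i`
  obtain ⟨r, hr⟩ : ∃ r : ℕ, i * r ≡ 1 [MOD p] := by
    obtain ⟨r, hr⟩ := Nat.exists_mul_mod_eq_one_of_coprime hic hp.one_lt
    exact ⟨r, by rw [Nat.ModEq, hr.2, Nat.mod_eq_of_lt hp.one_lt]⟩
  have hij : j ≡ i [MOD p] := by
    have h : (p : ℤ) ∣ (i : ℤ) - j := by
      have := dvd_sub di dj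
      simpa using this
    exact (Nat.modEq_iff_dvd).2 (by simpa using h)
  have hjr : j * r ≡ 1 [MOD p] := (hij.mul_right r).trans hr
  -- exponents as `1 + p s`, with positive numbers
  have hex : ∀ n : ℕ, n ≡ 1 [MOD p] → ∀ c : M, c ≠ 0 → ∃ d : M, d ≠ 0 ∧ c ^ n = c * d ^ p := by
    intro n hn c hc
    have h := Nat.div_add_mod n p
    rw [Nat.ModEq, Nat.mod_eq_of_lt hp.one_lt] at hn
    rw [hn] at h
    refine ⟨c ^ (n / p), pow_ne_zero _ hc, ?_⟩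
    rw [← pow_mul, ← pow_succ']
    congr 1
    rw [mul_comm (n / p) p]
    exact h.symm
  obtain ⟨d, hd0, hd⟩ := hex _ hr a ha0
  obtain ⟨e, he0, he⟩ := hex _ hjr b hb0
  have h3 : LocPow p v ((x * a ^ i * (x * b ^ j)⁻¹) ^ r) :=
    locPow_npow (Pool.Agent.Helper88.RD.locPow_mul hi (Pool.Agent.Helper88.RD.locPow_inv hj)) r
  have e1 : (x * a ^ i * (x * b ^ j)⁻¹) ^ r = (a * b⁻¹) * (d * e⁻¹) ^ p := by
    have : x * a ^ i * (x * b ^ j)⁻¹ = a ^ i * (b ^ j)⁻¹ := by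
      field_simp
    rw [this, mul_pow, inv_pow, ← pow_mul, ← pow_mul, hd, he, mul_pow d, inv_pow, mul_inv]
    ring
  rw [e1] at h3
  have h4 := Pool.Agent.Helper88.RD.locPow_mul_pow h3
  have h5 := Pool.Agent.Helper88.RD.locPow_mul h4 (Pool.Agent.Helper88.RD.locPow_pow v hb0)
  have e2 : a * b⁻¹ * b ^ p = a * b ^ (p - 1) := by
    obtain ⟨q, rfl⟩ : ∃ q, p = q + 1 := ⟨p - 1, by omega⟩
    rw [Nat.add_sub_cancel, pow_succ]
    field_simp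
  rwa [e2] at h5

end locp

section main

variable {p : ℕ} {K M : Type} [Field K] [NumberField K] [Field M] [NumberField M] [Algebra K M]

/-- The valuation vector. -/
noncomputable def nf (p : ℕ) (m : ℕ) (δ : M ≃ₐ[K] M) (𝔮 : HeightOneSpectrum (𝓞 M)) (x : M) :
    ZMod m → ZMod p := fun a => ((ordv 𝔮 ((δ ^ (-a).val) x) : ℤ) : ZMod p)

theorem pow_val_add {m : ℕ} [NeZero m] (δ : M ≃ₐ[K] M) (hδ : δ ^ m = 1) (a b : ZMod m) :
    δ ^ (a + b).val = δ ^ a.val * δ ^ b.val := by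
  rw [← pow_add, ZMod.val_add]
  exact (pow_eq_pow_mod _ hδ).symm

theorem pow_val_cast {m : ℕ} [NeZero m] (δ : M ≃ₐ[K] M) (hδ : δ ^ m = 1) (a : ℕ) :
    δ ^ (a : ZMod m).val = δ ^ a := by
  rw [ZMod.val_natCast]
  exact (pow_eq_pow_mod _ hδ).symm

theorem nf_pol [Fact p.Prime] {m : ℕ} [NeZero m] (δ : M ≃ₐ[K] M) (hδ : δ ^ m = 1)
    (𝔮 : HeightOneSpectrum (𝓞 M)) (c : (ZMod p)[X]) (x : Mˣ) :
    nf p m δ 𝔮 ((pol c δ x : Mˣ) : M) = (aeval (sh (ZMod p) m) c) (nf p m δ 𝔮 (x : M)) := by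
  funext i
  rw [aeval_sh]
  have hxne : ∀ g : M ≃ₐ[K] M, g (x : M) ≠ 0 := by
    intro g h
    exact x.ne_zero ((map_eq_zero_iff g g.injective).1 h)
  have h1 : ordv 𝔮 ((δ ^ (-i).val) ((pol c δ x : Mˣ) : M)) =
      ∑ j ∈ c.support, ((c.coeff j).val : ℤ) * ordv 𝔮 ((δ ^ (-(i - j)).val) (x : M)) := by
    rw [pol_apply, map_prod, Pool.Agent.Helper31.RP.ordv_prod]
    · apply Finset.sum_congr rfl
      intro j _
      rw [map_pow, Pool.Agent.Helper31.RP.ordv_pow]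
      congr 2
      have h2 : δ ^ (-(i - (j : ZMod m))).val = δ ^ (-i).val * δ ^ j := by
        rw [← pow_val_cast δ hδ j, ← pow_val_add δ hδ]
        congr 2
        ring
      rw [h2]
      rfl
    · intro j _
      rw [map_pow]
      apply pow_ne_zero
      exact hxne ((δ ^ (-i).val) * δ ^ j)
  have h4 := congrArg (fun z : ℤ => (z : ZMod p)) h1
  simp only [Int.cast_mul, Int.cast_natCast, Int.cast_sum, ZMod.natCast_zmod_val] at h4
  exact h4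

theorem nf_mul {m : ℕ} [NeZero m] (δ : M ≃ₐ[K] M)
    (𝔮 : HeightOneSpectrum (𝓞 M)) (x y : Mˣ) :
    nf p m δ 𝔮 ((x * y : Mˣ) : M) = nf p m δ 𝔮 (x : M) + nf p m δ 𝔮 (y : M) := by
  funext i
  unfold nf
  have hxne : ∀ (z : Mˣ) (g : M ≃ₐ[K] M), g (z : M) ≠ 0 := by
    intro z g h
    exact z.ne_zero ((map_eq_zero_iff g g.injective).1 h)
  rw [Units.val_mul, map_mul, Pool.Agent.Helper31.RP.ordv_mul _ (hxne x _) (hxne y _)]
  push_cast
  rfl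

theorem nf_pow {m : ℕ} [NeZero m] (δ : M ≃ₐ[K] M)
    (𝔮 : HeightOneSpectrum (𝓞 M)) (y : M) : nf p m δ 𝔮 (y ^ p) = 0 := by
  funext i
  unfold nf
  rw [map_pow, Pool.Agent.Helper31.RP.ordv_pow]
  simp

end main

open Pool.Agent.Helper74.RD (conj_symm conj_refl)
open Pool.Agent.Helper88.RD (locD_mul locD_inv locPow_mul locPow_pow al_ne_zero)
open Pool.Agent.Helper90.RP (loc_mul loc_inv)

/-- The protection lemma. -/
theorem d_pro (h1 : D_SLG) : D_PRO := by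
  classical
  intro p hpf k _ _ _ L K M _ _ _ _ _ _ m δ ζ Φ P hPhi hord hfin T R al hD htriv 𝔮 h𝔮R h𝔮F
    al₁ al₂ hD₁ hD₂ hal₁ hal₂ hx₁ hx₂
  have hp : p.Prime := hpf.out
  have hm1 : 1 < m := hPhi.one_lt
  haveI : NeZero m := ⟨by omega⟩
  have hδ : δ ^ m = 1 := by rw [← hord]; exact pow_orderOf_eq_one δ
  have hmF : (m : ZMod p) ≠ 0 := by
    intro h
    rw [ZMod.natCast_eq_zero_iff] at h
    exact (Nat.Prime.coprime_iff_not_dvd hp).1 hPhi.copm.symm h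
  obtain ⟨x₁, hx₁, hx₁p⟩ := hx₁
  obtain ⟨x₂, hx₂, hx₂p⟩ := hx₂
  have hcR : ∀ w, ConjP K w 𝔮 → w ∉ R := fun w hw h ↦ h𝔮R (hD.stable w h 𝔮 (conj_symm hw))
  -- the conditions away from q
  have relax : ∀ al' : HeightOneSpectrum (𝓞 M) → K, (∀ w ∈ R, al' w = al w) → ∀ x : Mˣ,
      SelD L (above T) P δ (R ∪ {w | ConjP K w 𝔮}) al' x →
      ∀ w, ¬ ConjP K w 𝔮 → LocD p R al w (x : M) := by
    intro al' hal' x hx w hw
    refine ⟨fun hwR ↦ (hx.loc w).1 ?_, fun hwR ↦ ?_⟩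
    · rintro (h | h)
      · exact hwR h
      · exact hw h
    · have h := (hx.loc w).2 (Or.inl hwR)
      rwa [hal' w hwR] at h
  -- a zero vector gives a p-th power
  have sel : ∀ x : Mˣ, Pw p (pol P δ x) → (∀ w, ¬ ConjP K w 𝔮 → LocD p R al w (x : M)) →
      LocSig L (above T : Set (M →+* k)) x → nf p m δ 𝔮 (x : M) = 0 → Pw p x := by
    intro x hpol hloc hsig hn
    refine htriv x ⟨hpol, fun w ↦ ?_, hsig⟩
    by_cases hw : ConjP K w 𝔮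
    · refine ⟨fun _ ↦ ?_, fun h ↦ absurd h (hcR w hw)⟩
      obtain ⟨g, hg⟩ := hw
      obtain ⟨i, hi⟩ := Pool.Agent.Helper60.RS.zpow_or δ hord hfin (by omega) g⁻¹
      have h8 : ordv 𝔮 (g⁻¹ (x : M)) = ordv w (x : M) :=
        Pool.Agent.Helper60.RS.ordv_conj g hg (x : M)
      rw [← h8, hi]
      have h9 := congrFun hn (-(i : ZMod m))
      unfold nf at h9
      simp only [neg_neg, Pi.zero_apply] at h9
      rw [pow_val_cast δ hδ] at h9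
      exact (ZMod.intCast_zmod_eq_zero_iff_dvd _ p).1 h9
    · exact hloc w hw
  -- the vectors are killed by P
  have killed : ∀ x : Mˣ, Pw p (pol P δ x) →
      (aeval (sh (ZMod p) m) P) (nf p m δ 𝔮 (x : M)) = 0 := by
    rintro x ⟨y, hy⟩
    rw [← nf_pol δ hδ, hy, Units.val_pow_eq_pow_val]
    exact nf_pow δ 𝔮 _
  -- the groups
  obtain ⟨G₁, hG₁, hG₁p, hG₁δ⟩ := h1 p k L K M δ P T _ al₁ hD₁
  obtain ⟨G₂, hG₂, hG₂p, hG₂δ⟩ := h1 p k L K M δ P T _ al₂ hD₂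
  have powG : ∀ (G : Subgroup Mˣ), (∀ x ∈ G, Units.map ((δ : M →+* M) : M →* M) x ∈ G) →
      ∀ x ∈ G, ∀ i : ℕ, Units.map (((δ ^ i : M ≃ₐ[K] M) : M →+* M) : M →* M) x ∈ G := by
    intro G hG x hx i
    induction i with
    | zero =>
        have h : Units.map (((δ ^ 0 : M ≃ₐ[K] M) : M →+* M) : M →* M) x = x := by
          ext
          simp
        rw [h]
        exact hx
    | succ i ih =>
        have h : Units.map (((δ ^ (i + 1) : M ≃ₐ[K] M) : M →+* M) : M →* M) x =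
            Units.map ((δ : M →+* M) : M →* M)
              (Units.map (((δ ^ i : M ≃ₐ[K] M) : M →+* M) : M →* M) x) := by
          ext
          simp [pow_succ']
        rw [h]
        exact hG _ ih
  have polG : ∀ c : (ZMod p)[X], ∀ x ∈ G₁, pol c δ x ∈ G₁ := by
    intro c x hx
    unfold pol
    rw [MonoidHom.finsetProd_apply]
    refine Subgroup.prod_mem _ fun j _ ↦ ?_
    rw [MonoidHom.pow_apply]
    exact Subgroup.pow_mem _ (powG G₁ hG₁δ x hx j) _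
  have hn₁ : nf p m δ 𝔮 (x₁ : M) ≠ 0 := fun h ↦
    hx₁p (sel x₁ hx₁.pol (relax al₁ hal₁ x₁ hx₁) hx₁.sig h)
  have hn₂ : nf p m δ 𝔮 (x₂ : M) ≠ 0 := fun h ↦
    hx₂p (sel x₂ hx₂.pol (relax al₂ hal₂ x₂ hx₂) hx₂.sig h)
  obtain ⟨a, ha⟩ : ∃ a, nf p m δ 𝔮 (x₂ : M) a ≠ 0 := Function.ne_iff.1 hn₂
  obtain ⟨y₂, hy₂def⟩ : ∃ y₂ : Mˣ,
      y₂ = Units.map (((δ ^ (-a).val : M ≃ₐ[K] M) : M →+* M) : M →* M) x₂ := ⟨_, rfl⟩
  have hy₂ : y₂ ∈ G₂ := hy₂def ▸ powG G₂ hG₂δ x₂ ((hG₂ x₂).2 hx₂) _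
  have hy₂' := (hG₂ y₂).1 hy₂
  have hordy : ¬ (p : ℤ) ∣ ordv 𝔮 (y₂ : M) := by
    intro h
    apply ha
    rw [hy₂def] at h
    exact (ZMod.intCast_zmod_eq_zero_iff_dvd _ p).2 h
  obtain ⟨c, hc⟩ := gen P hmF hPhi.irr hPhi.dvdP _ _ (killed x₁ hx₁.pol) (killed y₂ hy₂'.pol)
    hn₁
  obtain ⟨z₁, hz₁def⟩ : ∃ z₁ : Mˣ, z₁ = pol c δ x₁ := ⟨_, rfl⟩
  have hz₁ : z₁ ∈ G₁ := hz₁def ▸ polG c x₁ ((hG₁ x₁).2 hx₁)
  have hz₁' := (hG₁ z₁).1 hz₁
  have hnz : nf p m δ 𝔮 (z₁ : M) = nf p m δ 𝔮 (y₂ : M) := by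
    rw [hz₁def, nf_pol δ hδ, hc]
  have hq : Pw p (y₂ * z₁⁻¹) := by
    apply sel
    · obtain ⟨s, hs⟩ := hy₂'.pol
      obtain ⟨t, ht⟩ := hz₁'.pol
      exact ⟨s * t⁻¹, by rw [map_mul, map_inv, hs, ht, mul_pow, inv_pow]⟩
    · intro w hw
      exact locD_mul (relax al₂ hal₂ y₂ hy₂' w hw)
        (locD_inv hp.pos hD (relax al₁ hal₁ z₁ hz₁' w hw))
    · exact loc_mul L hy₂'.sig (loc_inv L hz₁'.sig)
    · have e := nf_mul (p := p) (m := m) δ 𝔮 (y₂ * z₁⁻¹) z₁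
      rw [inv_mul_cancel_right, hnz] at e
      exact add_eq_right.1 e.symm
  obtain ⟨z, hz⟩ := hq
  have hyz : y₂ = z₁ * z ^ p := by
    rw [← hz, mul_comm z₁, inv_mul_cancel_right]
  have h𝔮' : 𝔮 ∈ R ∪ {w | ConjP K w 𝔮} := Or.inr (conj_refl 𝔮)
  refine compare hp (al_ne_zero hD₁ h𝔮') (al_ne_zero hD₂ h𝔮') (hD₁.unif 𝔮 h𝔮')
    (hD₂.unif 𝔮 h𝔮') y₂.ne_zero hordy ?_ ((hy₂'.loc 𝔮).2 h𝔮')
  obtain ⟨i, hi⟩ := (hz₁'.loc 𝔮).2 h𝔮'
  refine ⟨i, ?_⟩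
  have h := locPow_mul hi (locPow_pow 𝔮 z.ne_zero)
  have e : (z₁ : M) * algebraMap K M (al₁ 𝔮) ^ i * (z : M) ^ p =
      (y₂ : M) * algebraMap K M (al₁ 𝔮) ^ i := by
    rw [hyz, Units.val_mul, Units.val_pow_eq_pow_val]
    ring
  rwa [e] at h

end Pool.Agent.Helper76.RD
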